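import Pool.Agent.helper32.TRG.Spec

/-!
# Row tg:X4C (MP_561ff4_al): the calculus of the scaled root elements
-/

set_option autoImplicit false

open Finset

namespace Pool.Agent.TRI

open Pool.Agent.EXC

theorem X4C_cv (χ α β : Fin 4 → ℤ) : cv4 χ (α + β) = cv4 χ α + cv4 χ β := by
  unfold cv4
  rw [← Finset.sum_add_distrib]
  refine Finset.sum_congr rfl fun i _ => ?_
  rw [Pi.add_apply]
  ring

theorem X4C : X4C_stmt := by
  intro K _ χ c hc α β hα hβ s t
  obtain ⟨-, h2, h3, h4⟩ := g_GXC 4 C4 K hb4 α β hα hβ (s * c ^ cv4 χ α) (t * c ^ cv4 χ β)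
  have h1 := (g_GXC 4 C4 K hb4 α α hα hα (s * c ^ cv4 χ α) (t * c ^ cv4 χ α)).1
  refine ⟨?_, ?_, h3, fun h => ?_⟩
  · unfold XP
    rw [add_mul]
    exact h1
  · unfold XP
    rw [zero_mul]
    exact h2
  · unfold XP
    rw [h4 h, X4C_cv, zpow_add₀ hc]
    congr 2
    ring

end Pool.Agent.TRI
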